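import Mathlib

/-!
# A gcd recursion: no starting value is good when the polynomial has an integer zero `c ≥ 2`

If `P(c) = 0` for an integer `c ≥ 2`, then `S(c) = |S(c-1) - gcd(S(c-1), 0)| = 0` for every starting value. The
irreducible factor `Q_j` with `Q_j(c) = 0` is `±(x - c)`, so `Q_j(c + 1) = ±1` is not prime. So no starting value
is good. The polynomial `x - 2` takes infinitely many prime values.
-/

namespace Pool.Agent.Results.MP_e68b86_nt.IntegerZero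

open Polynomial

/-- The sequence `S(1) = s`, `S(n) = |S(n-1) - gcd(S(n-1), P(n))|` for `n ≥ 2` (and `S(0) = s`, which is not used). -/
noncomputable def S (P : ℤ[X]) (s : ℕ) : ℕ → ℕ
  | 0 => s
  | 1 => s
  | (n + 2) => ((S P s (n + 1) : ℤ) - (Int.gcd (S P s (n + 1)) (P.eval ((n + 2 : ℕ) : ℤ)) : ℤ)).natAbs

/-- The integer `z` is a positive rational prime. -/
def IsPrime (z : ℤ) : Prop := ∃ p : ℕ, p.Prime ∧ z = p

/-- `s` is good for the product of the `Q j`: the sequence vanishes for infinitely many `n`, and whenever it vanishes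
at some `n ≥ 2`, all the `Q j (n + 1)` are prime. -/
def Good {m : ℕ} (Q : Fin m → ℤ[X]) (s : ℕ) : Prop :=
  {n : ℕ | 1 ≤ n ∧ S (∏ j, Q j) s n = 0}.Infinite ∧
  ∀ n : ℕ, 2 ≤ n → S (∏ j, Q j) s n = 0 → ∀ j, IsPrime ((Q j).eval ((n + 1 : ℕ) : ℤ))

/-- The hypothesis of the question: `m ≥ 1`, all `Q j` are irreducible (and not constant), and they are
simultaneously prime for infinitely many positive integers. -/
def Admissible {m : ℕ} (Q : Fin m → ℤ[X]) : Prop :=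
  1 ≤ m ∧ (∀ j, Irreducible (Q j) ∧ 1 ≤ (Q j).natDegree) ∧
    {k : ℕ | 1 ≤ k ∧ ∀ j, IsPrime ((Q j).eval (k : ℤ))}.Infinite

lemma no_good {m : ℕ} (Q : Fin m → ℤ[X]) (h : Admissible Q) (j : Fin m) (c : ℕ) (hc : 2 ≤ c)
    (h0 : (Q j).eval (c : ℤ) = 0) (s : ℕ) : ¬ Good Q s := by
  rintro ⟨-, h2⟩
  obtain ⟨n, rfl⟩ : ∃ n, c = n + 2 := ⟨c - 2, by omega⟩
  have hP : (∏ j, Q j).eval ((n + 2 : ℕ) : ℤ) = 0 := by
    rw [eval_prod]
    exact Finset.prod_eq_zero (Finset.mem_univ j) h0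
  have hS : S (∏ j, Q j) s (n + 2) = 0 := by
    rw [S, hP, Int.gcd_zero_right]
    simp
  obtain ⟨p, hp, hpe⟩ := h2 (n + 2) hc hS j
  -- the value at `c + 1` is a unit
  have hdvd : (X - C ((n + 2 : ℕ) : ℤ)) ∣ Q j := dvd_iff_isRoot.mpr h0
  obtain ⟨g, hg⟩ := hdvd
  have hirr := (h.2.1 j).1
  rw [hg] at hirr
  have hnu : ¬ IsUnit (X - C ((n + 2 : ℕ) : ℤ)) := (irreducible_X_sub_C _).not_isUnit
  have hgu : IsUnit g := (hirr.isUnit_or_isUnit rfl).resolve_left hnu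
  have hu : IsUnit ((Q j).eval ((n + 2 + 1 : ℕ) : ℤ)) := by
    rw [hg, eval_mul]
    have h1 : (X - C ((n + 2 : ℕ) : ℤ)).eval ((n + 2 + 1 : ℕ) : ℤ) = 1 := by
      simp
    rw [h1, one_mul]
    exact hgu.map (evalRingHom ((n + 2 + 1 : ℕ) : ℤ))
  rw [hpe] at hu
  have := Int.isUnit_iff_natAbs_eq.mp hu
  rw [Int.natAbs_natCast] at this
  exact hp.one_lt.ne' this

/-- (a) For every admissible family one of whose members has an integer zero `c ≥ 2`, no starting value is good.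
(b) There are such families, for instance the single polynomial `x - 2`. In particular there is an admissible family
for which only finitely many (in fact no) positive integers are good. -/
theorem result :
    (∀ (m : ℕ) (Q : Fin m → ℤ[X]), Admissible Q → (∃ j, ∃ c : ℕ, 2 ≤ c ∧ (Q j).eval (c : ℤ) = 0) →
      {s : ℕ | 1 ≤ s ∧ Good Q s} = ∅) ∧
    (Admissible (fun _ : Fin 1 => (X - C 2 : ℤ[X])) ∧
      {s : ℕ | 1 ≤ s ∧ Good (fun _ : Fin 1 => (X - C 2 : ℤ[X])) s} = ∅) := by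
  have ha : ∀ (m : ℕ) (Q : Fin m → ℤ[X]), Admissible Q → (∃ j, ∃ c : ℕ, 2 ≤ c ∧ (Q j).eval (c : ℤ) = 0) →
      {s : ℕ | 1 ≤ s ∧ Good Q s} = ∅ := by
    rintro m Q h ⟨j, c, hc, h0⟩
    ext s
    simp only [Set.mem_ofPred_eq, Set.mem_empty_iff_false, iff_false, not_and]
    exact fun _ => no_good Q h j c hc h0 s
  have hadm : Admissible (fun _ : Fin 1 => (X - C 2 : ℤ[X])) := by
    refine ⟨le_rfl, fun _ => ⟨irreducible_X_sub_C _, by rw [natDegree_X_sub_C]⟩, ?_⟩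
    rw [Set.infinite_iff_exists_gt]
    intro a
    obtain ⟨p, hpa, hp⟩ := Nat.exists_infinite_primes (a + 1)
    refine ⟨p + 2, ⟨by omega, fun _ => ⟨p, hp, ?_⟩⟩, by omega⟩
    simp
  exact ⟨ha, hadm, ha 1 _ hadm ⟨0, 2, le_rfl, by simp⟩⟩

end Pool.Agent.Results.MP_e68b86_nt.IntegerZero
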